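import Pool.Agent.W223.VD.Stms

/-! Project VD, part GL: a form of Gauss' lemma. -/

set_option autoImplicit false

namespace Pool.Agent.W74.VD.GL

open Polynomial IntermediateField IsDedekindDomain NumberField
open Pool.Agent.H813R3.Voj (value rho mahler)
open Pool.Agent.W223.VD

/-- the value of the binary form as a product over the roots -/
theorem value_prod {f : ℤ[X]} (P : ℤ × ℤ) :
    ((value f P : ℤ) : ℂ) = (f.leadingCoeff : ℂ) *
      ((f.map (Int.castRingHom ℂ)).roots.map (fun y => (P.1 : ℂ) - y * (P.2 : ℂ))).prod := by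
  set g := f.map (Int.castRingHom ℂ) with hg
  have hinj : Function.Injective (Int.castRingHom ℂ) := RingHom.injective_int _
  have hdeg : g.natDegree = f.natDegree := natDegree_map_eq_of_injective hinj f
  have hlc : g.leadingCoeff = (f.leadingCoeff : ℂ) := by
    rw [hg, leadingCoeff_map_of_injective hinj]
    rfl
  have hsp : g.Splits := IsAlgClosed.splits g
  have hcard : Multiset.card g.roots = f.natDegree := by
    rw [← hsp.natDegree_eq_card_roots, hdeg]
  unfold value
  push_cast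
  by_cases hv : P.2 = 0
  · rw [hv]
    simp only [Int.cast_zero, mul_zero, sub_zero, Multiset.map_const', Multiset.prod_replicate]
    rw [hcard, Finset.sum_range_succ, Nat.sub_self, pow_zero, mul_one,
      Finset.sum_eq_zero, zero_add]
    · rfl
    · intro j hj
      rw [Finset.mem_range] at hj
      rw [zero_pow (by omega), mul_zero]
  · have hv' : (P.2 : ℂ) ≠ 0 := by exact_mod_cast hv
    have h1 : ∑ j ∈ Finset.range (f.natDegree + 1),
        (f.coeff j : ℂ) * (P.1 : ℂ) ^ j * (P.2 : ℂ) ^ (f.natDegree - j)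
        = (P.2 : ℂ) ^ f.natDegree * g.eval ((P.1 : ℂ) / P.2) := by
      rw [eval_eq_sum_range, hdeg, Finset.mul_sum]
      refine Finset.sum_congr rfl fun j hj => ?_
      rw [Finset.mem_range] at hj
      rw [hg, coeff_map, div_pow]
      have h2 : (P.2 : ℂ) ^ f.natDegree = (P.2 : ℂ) ^ (f.natDegree - j) * (P.2 : ℂ) ^ j := by
        rw [← pow_add]; congr 1; omega
      rw [h2]
      simp only [eq_intCast]
      field_simp
    rw [h1]
    have h3 : g.eval ((P.1 : ℂ) / P.2) = g.leadingCoeff *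
        (g.roots.map (fun y => (P.1 : ℂ) / P.2 - y)).prod := by
      conv_lhs => rw [hsp.eq_prod_roots]
      rw [eval_mul, eval_C, eval_multiset_prod, Multiset.map_map]
      congr 2
      refine Multiset.map_congr rfl fun y _ => ?_
      simp
    rw [h3, hlc]
    have h4 : (g.roots.map (fun y => (P.1 : ℂ) - y * (P.2 : ℂ))).prod
        = (P.2 : ℂ) ^ f.natDegree * (g.roots.map (fun y => (P.1 : ℂ) / P.2 - y)).prod := by
      rw [← hcard]
      have h5 : (P.2 : ℂ) ^ (Multiset.card g.roots) = (g.roots.map (fun _ => (P.2 : ℂ))).prod := by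
        rw [Multiset.map_const', Multiset.prod_replicate]
      rw [h5, ← Multiset.prod_map_mul]
      congr 1
      refine Multiset.map_congr rfl fun y _ => ?_
      field_simp
    rw [h4]
    ring

/-- products of polynomials with integral coefficients -/
theorem integral_coeff_prod (s : Multiset ℂ[X])
    (h : ∀ g ∈ s, ∀ j, IsIntegral ℤ (g.coeff j)) : ∀ j, IsIntegral ℤ (s.prod.coeff j) := by
  induction s using Multiset.induction_on with
  | empty =>
    intro j
    rw [Multiset.prod_zero, coeff_one]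
    split_ifs
    · exact isIntegral_one
    · exact isIntegral_zero
  | cons a s ih =>
    intro j
    rw [Multiset.prod_cons, coeff_mul]
    refine IsIntegral.sum _ fun q _ => ?_
    exact (h a (Multiset.mem_cons_self a s) _).mul
      (ih (fun g hg => h g (Multiset.mem_cons_of_mem hg)) _)

variable {K : Type} [Field K] [NumberField K]

/-- the ideal of common denominators -/
def den (α β : K) : Ideal (𝓞 K) where
  carrier := {a | IsIntegral ℤ ((a : K) * α) ∧ IsIntegral ℤ ((a : K) * β)}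
  add_mem' := by
    rintro a b ⟨h1, h2⟩ ⟨h3, h4⟩
    constructor
    · have : ((a + b : 𝓞 K) : K) * α = (a : K) * α + (b : K) * α := by
        push_cast; ring
      rw [this]; exact h1.add h3
    · have : ((a + b : 𝓞 K) : K) * β = (a : K) * β + (b : K) * β := by
        push_cast; ring
      rw [this]; exact h2.add h4
  zero_mem' := by
    constructor <;> simp [isIntegral_zero]
  smul_mem' := by
    rintro c a ⟨h1, h2⟩
    constructor
    · have : ((c • a : 𝓞 K) : K) * α = (c : K) * ((a : K) * α) := by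
        rw [smul_eq_mul]; push_cast; ring
      rw [this]; exact (RingOfIntegers.isIntegral_coe c).mul h1
    · have : ((c • a : 𝓞 K) : K) * β = (c : K) * ((a : K) * β) := by
        rw [smul_eq_mul]; push_cast; ring
      rw [this]; exact (RingOfIntegers.isIntegral_coe c).mul h2

omit [NumberField K] in
theorem mem_den {α β : K} {a : 𝓞 K} :
    a ∈ den α β ↔ IsIntegral ℤ ((a : K) * α) ∧ IsIntegral ℤ ((a : K) * β) := Iff.rfl

theorem exists_above (p : ℕ) (hp : p.Prime) (I : Ideal (𝓞 K))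
    (hI : ∀ m : ℤ, (m : 𝓞 K) ∈ I → (p : ℤ) ∣ m) :
    ∃ w : HeightOneSpectrum (𝓞 K), (p : 𝓞 K) ∈ w.asIdeal ∧ I ≤ w.asIdeal := by
  have hprime : (Ideal.span {(p : ℤ)}).IsPrime :=
    (Ideal.span_singleton_prime (by exact_mod_cast hp.ne_zero)).2 (Nat.prime_iff_prime_int.1 hp)
  have hle : I.comap (algebraMap ℤ (𝓞 K)) ≤ Ideal.span {(p : ℤ)} := by
    intro m hm
    rw [Ideal.mem_comap] at hm
    rw [Ideal.mem_span_singleton]
    exact hI m (by simpa using hm)
  obtain ⟨Q, hQI, hQp, hQc⟩ := Ideal.exists_ideal_over_prime_of_isIntegral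
    (Ideal.span {(p : ℤ)}) I hle
  have hpQ : (p : 𝓞 K) ∈ Q := by
    have : (p : ℤ) ∈ Q.comap (algebraMap ℤ (𝓞 K)) := by
      rw [hQc]; exact Ideal.mem_span_singleton_self _
    rw [Ideal.mem_comap] at this
    simpa using this
  have hQ0 : Q ≠ ⊥ := by
    intro h
    rw [h, Ideal.mem_bot] at hpQ
    have : (p : 𝓞 K) ≠ 0 := by exact_mod_cast hp.ne_zero
    exact this hpQ
  exact ⟨⟨Q, hQp, hQ0⟩, hpQ, hQI⟩

theorem exists_den (p : ℕ) (hp : p.Prime) (α β : K)
    (hα : ∀ w : HeightOneSpectrum (𝓞 K), (p : 𝓞 K) ∈ w.asIdeal → w.valuation K α ≤ 1)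
    (hβ : ∀ w : HeightOneSpectrum (𝓞 K), (p : 𝓞 K) ∈ w.asIdeal → w.valuation K β ≤ 1) :
    ∃ m : ℤ, ¬ (p : ℤ) ∣ m ∧ IsIntegral ℤ ((m : K) * α) ∧ IsIntegral ℤ ((m : K) * β) := by
  by_contra hcon
  push Not at hcon
  obtain ⟨w, hpw, hIw⟩ := exists_above p hp (den α β) (fun m hm => by
    by_contra h
    rw [mem_den] at hm
    refine hcon m h ?_ ?_
    · simpa using hm.1
    · simpa using hm.2)
  obtain ⟨n, d, h1⟩ := w.exists_primeCompl_mul_eq_of_integer α (hα w hpw)
  obtain ⟨n', d', h2⟩ := w.exists_primeCompl_mul_eq_of_integer β (hβ w hpw)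
  have hmem : (d : 𝓞 K) * (d' : 𝓞 K) ∈ den α β := by
    rw [mem_den]
    constructor
    · have : (((d : 𝓞 K) * (d' : 𝓞 K) : 𝓞 K) : K) * α
          = ((d' : 𝓞 K) : K) * (α * ((d : 𝓞 K) : K)) := by
        push_cast; ring
      rw [this]
      refine (RingOfIntegers.isIntegral_coe _).mul ?_
      have h3 : α * ((d : 𝓞 K) : K) = (n : K) := h1
      rw [h3]
      exact RingOfIntegers.isIntegral_coe _
    · have : (((d : 𝓞 K) * (d' : 𝓞 K) : 𝓞 K) : K) * β
          = ((d : 𝓞 K) : K) * (β * ((d' : 𝓞 K) : K)) := by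
        push_cast; ring
      rw [this]
      refine (RingOfIntegers.isIntegral_coe _).mul ?_
      have h3 : β * ((d' : 𝓞 K) : K) = (n' : K) := h2
      rw [h3]
      exact RingOfIntegers.isIntegral_coe _
  rcases w.isPrime.mem_or_mem (hIw hmem) with h | h
  · exact d.2 h
  · exact d'.2 h

theorem t : StmtGL := by
  intro K _ _ x f P p hx hirr hdeg hfx hcop hp hdvd
  by_cases hD0 : (P.1 : K) - x * (P.2 : K) = 0
  · obtain ⟨w, hpw, -⟩ := exists_above (K := K) p hp ⊥ (fun m hm => by
      rw [Ideal.mem_bot] at hm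
      have : m = 0 := by exact_mod_cast hm
      rw [this]; exact dvd_zero _)
    refine ⟨w, hpw, ?_⟩
    rw [hD0, map_zero]
    exact lt_max_of_lt_right zero_lt_one
  by_contra hcon
  push Not at hcon
  set D : K := (P.1 : K) - x * (P.2 : K) with hD
  have hval : ∀ w : HeightOneSpectrum (𝓞 K), w.valuation K D ≠ 0 := fun w =>
    (Valuation.ne_zero_iff _).2 hD0
  obtain ⟨m, hpm, hm1, hm2⟩ := exists_den p hp D⁻¹ (x * D⁻¹) (fun w hw => by
    have h1 := (le_max_right _ _).trans (hcon w hw)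
    rw [map_inv₀]
    exact inv_le_one_of_one_le₀ h1) (fun w hw => by
    have h1 := (le_max_left _ _).trans (hcon w hw)
    rw [map_mul, map_inv₀]
    exact (mul_inv_le_iff₀ (zero_lt_iff.2 (hval w))).2 (by rw [one_mul]; exact h1))
  -- the conjugates
  have hfin : 0 < Module.finrank ℚ K := Module.finrank_pos
  have hf0 : f ≠ 0 := hirr.ne_zero
  have hxint : IsIntegral ℚ x := Algebra.IsIntegral.isIntegral x
  have hmindeg : (minpoly ℚ x).natDegree = f.natDegree := by
    rw [← IntermediateField.adjoin.finrank hxint, hx, IntermediateField.finrank_top', hdeg]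
  set fQ := f.map (Int.castRingHom ℚ) with hfQ
  have hfQdeg : fQ.natDegree = f.natDegree :=
    natDegree_map_eq_of_injective (RingHom.injective_int _) f
  have hfQ0 : fQ ≠ 0 := (Polynomial.map_ne_zero_iff (RingHom.injective_int _)).2 hf0
  have hfQx : aeval x fQ = 0 := by
    rw [hfQ, show (Int.castRingHom ℚ) = algebraMap ℤ ℚ from rfl, aeval_map_algebraMap, hfx]
  obtain ⟨q, hq⟩ := minpoly.dvd ℚ x hfQx
  have hq0 : q ≠ 0 := by
    rintro rfl
    rw [mul_zero] at hq
    exact hfQ0 hq
  have hqdeg : q.natDegree = 0 := by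
    have h1 : fQ.natDegree = (minpoly ℚ x).natDegree + q.natDegree := by
      rw [hq, natDegree_mul (minpoly.ne_zero hxint) hq0]
    omega
  set g := f.map (Int.castRingHom ℂ) with hg
  have hinj : Function.Injective (Int.castRingHom ℂ) := RingHom.injective_int _
  have hgdeg : g.natDegree = f.natDegree := natDegree_map_eq_of_injective hinj f
  have hlc : g.leadingCoeff = (f.leadingCoeff : ℂ) := by
    rw [hg, leadingCoeff_map_of_injective hinj]
    rfl
  have hsp : g.Splits := IsAlgClosed.splits g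
  have hcard : Multiset.card g.roots = f.natDegree := by
    rw [← hsp.natDegree_eq_card_roots, hgdeg]
  have hconj : ∀ y ∈ g.roots, ∃ φ : K →ₐ[ℚ] ℂ, φ x = y := by
    intro y hy
    have hy1 : g.eval y = 0 := (mem_roots'.1 hy).2
    have hy2 : aeval y fQ = 0 := by
      rw [hfQ, show (Int.castRingHom ℚ) = algebraMap ℤ ℚ from rfl, aeval_map_algebraMap, aeval_def,
        ← eval_map]
      exact hy1
    rw [hq, map_mul] at hy2
    have hy3 : aeval y q ≠ 0 := by
      rw [eq_C_of_natDegree_eq_zero hqdeg] at hq0 ⊢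
      rw [aeval_C]
      have : q.coeff 0 ≠ 0 := fun h => hq0 (by rw [h, C_0])
      simpa using this
    have hy4 : aeval y (minpoly ℚ x) = 0 := (mul_eq_zero.1 hy2).resolve_right hy3
    have hy5 : y ∈ (minpoly ℚ x).rootSet ℂ := by
      rw [mem_rootSet]
      exact ⟨minpoly.ne_zero hxint, hy4⟩
    rw [← Algebra.IsAlgebraic.range_eval_eq_rootSet_minpoly ℂ x] at hy5
    exact hy5
  have hfac : ∀ y ∈ g.roots, (P.1 : ℂ) - y * (P.2 : ℂ) ≠ 0 ∧
      IsIntegral ℤ ((m : ℂ) * ((P.1 : ℂ) - y * (P.2 : ℂ))⁻¹) ∧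
      IsIntegral ℤ ((m : ℂ) * (y * ((P.1 : ℂ) - y * (P.2 : ℂ))⁻¹)) := by
    intro y hy
    obtain ⟨φ, rfl⟩ := hconj y hy
    have h1 : φ D = (P.1 : ℂ) - φ x * (P.2 : ℂ) := by
      rw [hD, map_sub, map_mul, map_intCast, map_intCast]
    refine ⟨?_, ?_, ?_⟩
    · rw [← h1]
      exact (map_ne_zero φ).2 hD0
    · have h2 : φ ((m : K) * D⁻¹) = (m : ℂ) * ((P.1 : ℂ) - φ x * (P.2 : ℂ))⁻¹ := by
        rw [map_mul, map_inv₀, h1, map_intCast]
      rw [← h2]
      exact map_isIntegral_int φ.toRingHom hm1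
    · have h2 : φ ((m : K) * (x * D⁻¹)) =
          (m : ℂ) * (φ x * ((P.1 : ℂ) - φ x * (P.2 : ℂ))⁻¹) := by
        rw [map_mul, map_mul, map_inv₀, h1, map_intCast]
      rw [← h2]
      exact map_isIntegral_int φ.toRingHom hm2
  set h : ℂ[X] := (g.roots.map (fun y => C ((m : ℂ) * ((P.1 : ℂ) - y * (P.2 : ℂ))⁻¹) * X -
    C ((m : ℂ) * (y * ((P.1 : ℂ) - y * (P.2 : ℂ))⁻¹)))).prod with hh
  have hint : ∀ j, IsIntegral ℤ (h.coeff j) := by
    refine integral_coeff_prod _ fun a ha => ?_
    obtain ⟨y, hy, rfl⟩ := Multiset.mem_map.1 ha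
    intro j
    obtain ⟨-, h1, h2⟩ := hfac y hy
    rw [coeff_sub, coeff_C_mul, coeff_X, coeff_C]
    refine IsIntegral.sub ?_ ?_
    · split_ifs
      · rw [mul_one]; exact h1
      · rw [mul_zero]; exact isIntegral_zero
    · split_ifs
      · exact h2
      · exact isIntegral_zero
  have hident : C ((m : ℂ) ^ f.natDegree) * g = C ((value f P : ℤ) : ℂ) * h := by
    rw [value_prod, ← hg, C_mul]
    conv_lhs => rw [hsp.eq_prod_roots, hlc]
    have h1 : C ((m : ℂ) ^ f.natDegree) = (g.roots.map (fun _ => C (m : ℂ))).prod := by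
      rw [Multiset.map_const', Multiset.prod_replicate, hcard, C_pow]
    have h2 : C ((g.roots.map (fun y => (P.1 : ℂ) - y * (P.2 : ℂ))).prod)
        = (g.roots.map (fun y => C ((P.1 : ℂ) - y * (P.2 : ℂ)))).prod := by
      rw [map_multiset_prod, Multiset.map_map]
      rfl
    rw [h1, h2, hh, mul_left_comm, ← Multiset.prod_map_mul, mul_assoc, ← Multiset.prod_map_mul]
    congr 2
    refine Multiset.map_congr rfl fun y hy => ?_
    have h3 := (hfac y hy).1
    have a1 : ((P.1 : ℂ) - y * (P.2 : ℂ)) * ((m : ℂ) * ((P.1 : ℂ) - y * (P.2 : ℂ))⁻¹) = m := by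
      field_simp
    have a2 : ((P.1 : ℂ) - y * (P.2 : ℂ)) * ((m : ℂ) * (y * ((P.1 : ℂ) - y * (P.2 : ℂ))⁻¹))
        = m * y := by
      field_simp
    set z : ℂ := (P.1 : ℂ) - y * (P.2 : ℂ) with hz
    calc C (m : ℂ) * (X - C y) = C (m : ℂ) * X - C ((m : ℂ) * y) := by rw [C_mul]; ring
      _ = C (z * ((m : ℂ) * z⁻¹)) * X - C (z * ((m : ℂ) * (y * z⁻¹))) := by rw [a1, a2]
      _ = C z * (C ((m : ℂ) * z⁻¹) * X - C ((m : ℂ) * (y * z⁻¹))) := by
          rw [C_mul (a := z), C_mul (a := z)]; ring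
  have hvne : (value f P : ℂ) ≠ 0 := by
    rw [value_prod, ← hg]
    refine mul_ne_zero (by exact_mod_cast leadingCoeff_ne_zero.2 hf0) ?_
    refine Multiset.prod_ne_zero fun h0 => ?_
    obtain ⟨y, hy, hy0⟩ := Multiset.mem_map.1 h0
    exact (hfac y hy).1 hy0
  have hvne' : (value f P : ℚ) ≠ 0 := by
    intro h0
    apply hvne
    have : value f P = 0 := by exact_mod_cast h0
    rw [this]; simp
  have hall : ∀ j, (p : ℤ) ∣ f.coeff j := by
    intro j
    have h1 : (m : ℂ) ^ f.natDegree * (f.coeff j : ℂ) = (value f P : ℂ) * h.coeff j := by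
      have := congrArg (fun g => coeff g j) hident
      simp only [coeff_C_mul] at this
      rw [hg, coeff_map] at this
      exact this
    have h2 : h.coeff j = algebraMap ℚ ℂ
        ((m : ℚ) ^ f.natDegree * (f.coeff j : ℚ) / (value f P : ℚ)) := by
      rw [eq_ratCast]
      push_cast
      rw [h1]
      field_simp
    have h3 := hint j
    rw [h2, isIntegral_algebraMap_iff (algebraMap ℚ ℂ).injective] at h3
    obtain ⟨k, hk⟩ := IsIntegrallyClosed.isIntegral_iff.1 h3
    have h4 : m ^ f.natDegree * f.coeff j = value f P * k := by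
      have h5 : (k : ℚ) = (m : ℚ) ^ f.natDegree * (f.coeff j : ℚ) / (value f P : ℚ) := by
        rw [← hk]; rfl
      have h6 : (m : ℚ) ^ f.natDegree * (f.coeff j : ℚ) = (value f P : ℚ) * k := by
        rw [h5]; field_simp
      exact_mod_cast h6
    have h5 : (p : ℤ) ∣ m ^ f.natDegree * f.coeff j := by
      rw [h4]; exact Dvd.dvd.mul_right hdvd k
    have hpp : Prime (p : ℤ) := Nat.prime_iff_prime_int.1 hp
    rcases hpp.dvd_or_dvd h5 with h6 | h6
    · exact absurd (hpp.dvd_of_dvd_pow h6) hpm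
    · exact h6
  have hprim : f.IsPrimitive := hirr.isPrimitive (by omega)
  have hu := hprim (p : ℤ) ((C_dvd_iff_dvd_coeff _ _).2 hall)
  exact (Nat.prime_iff_prime_int.1 hp).not_isUnit hu

end Pool.Agent.W74.VD.GL
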